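import Pool.Agent.Run7.h947.IW.Orb
import Pool.Agent.Run7.h947.IW.GapL

/-!
# A gap for the growth of class group ranks in Galois extensions of an arbitrary number field

`Qb` is an algebraic closure of `ℚ`, number fields are finite subextensions of `Qb / ℚ`, and `p` is an
odd prime. For a number field `F` let `r(F)` be the order of `Cl(F) / p`, that is, the largest degree of an
unramified abelian extension of `F` of exponent `p`; `DegLe p F C` says `r(F) ≤ C`. The layers `F R` of the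
cyclotomic `ℤ_p`-extension of `F` are given by the layers `R` of the one of `ℚ` (`IsLayer`), and `μ = 0`
for `F` if and only if the `r(F R)` are bounded (`MuZero`).

Let `k` be any number field and let `K / k` be a finite Galois extension (`K / ℚ` need not be Galois). Let
`𝓔` be a set of fields between `k` and `K` such that each simple `𝔽_p`-representation of `Gal(K/k)` of dimension
less than `d` has a nonzero vector fixed by `Gal(K/E)`, for some `E` in `𝓔`. Let `R ≤ R'` be layers, and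
let the degree of `R` be at least the largest power of `p` which divides `[N : ℚ]`, for a finite Galois
extension `N / ℚ` which contains `K`. Suppose that

  `r(K R') < p ^ (d ([K R' : K] - [K R : K])) r(K R)`,

that is, that the `p`-rank grows by less than `d ([K R' : K] - [K R : K])`.

1. Then `μ = 0` for `K` if and only if `μ = 0` for all `E` in `𝓔`.
2. If `K / k` is abelian, then `μ = 0` for `K` if and only if `μ = 0` for all `E` between `k` and `K` which
   are cyclic over `k`, of a degree `n` prime to `p` such that the order of `p` modulo `n` is less than `d`.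
3. If `K / k` is abelian, and the order of `p` modulo `n` is at least `d` for all divisors `n > 1` of `[K : k]`
   which are prime to `p`, then `μ = 0` for `K` if and only if `μ = 0` for `k`.

So for each Galois extension `K / k` such that `μ = 0` for the fields in `𝓔`, one has either `μ(K) = 0` or
`rank_p Cl(K_n') - rank_p Cl(K_n) ≥ d (p^n' - p^n)` for all large `n' ≥ n`. For example let `k` be abelian over
`ℚ`, so that `μ(k) = 0` by Ferrero and Washington, and let `K / k` be cyclic of prime degree `l ≠ p`, and `f` the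
order of `p` modulo `l`. Then `μ(K) = 0` if the rank of the class group of one layer exceeds the rank of a
previous one by less than `f (p^n' - p^n)`.

Proof. The gap theorem is proved for the open subgroup of `Gal(Qb/ℚ)` which fixes `k`
(`Run7.h947.IW.gapk_growth`): with `T = γ - 1` for a generator `γ` of the group of a high layer `K S / K` and
the module `V` of the layer, the modules of `K R` and `K R'` are `V / Y` and `V / T ^ (q' - q) Y`. By the
growth condition the kernel of `T` on `T ^ (q' - q - 1) Y` has dimension less than `d`; so all simple quotients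
of `T ^ (q' - 1) V` are detected by `𝓔`, and their coinvariants are bounded. In 2 a representation of dimension
less than `d` has over `\bar 𝔽_p` an eigenvector with a character, whose conjugates are independent.
-/

set_option autoImplicit false

namespace Pool.Agent.Results.MP_a4986b_nt.RankGrowthGap

open IntermediateField Module Pool.Agent.Q60.MU Pool.Agent.W5h77.MB Pool.Agent.W5h33.DF Run7.h947.IW

/-- `K / k` is a finite Galois extension. -/
def IsFiniteGaloisOver (k K : IntermediateField ℚ Qb) : Prop :=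
  k ≤ K ∧ FiniteDimensional ℚ K ∧ ∀ σ ∈ k.fixingSubgroup, ∀ x ∈ K, σ x ∈ K

/-- `K / k` is abelian (if it is Galois). -/
def IsAbelianOver (k K : IntermediateField ℚ Qb) : Prop :=
  ∀ σ ∈ k.fixingSubgroup, ∀ τ ∈ k.fixingSubgroup, ∀ x ∈ K, σ (τ x) = τ (σ x)

/-- `E / k` is cyclic. -/
def IsCyclicOver (k E : IntermediateField ℚ Qb) : Prop :=
  k ≤ E ∧ (∀ σ ∈ k.fixingSubgroup, ∀ x ∈ E, σ x ∈ E) ∧
    ∃ σ ∈ k.fixingSubgroup, ∀ τ ∈ k.fixingSubgroup, ∃ i : ℕ, ∀ x ∈ E, τ x = (σ ^ i) x

/-- `[E : k]` -/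
noncomputable def deg (k E : IntermediateField ℚ Qb) : ℕ := finrank ℚ E / finrank ℚ k

/-- The fields `E` between `k` and `K` which are cyclic over `k`, of a degree prime to `p` modulo which the
order of `p` is less than `d`. -/
def SmallFields (p d : ℕ) (k K : IntermediateField ℚ Qb) : Set (IntermediateField ℚ Qb) :=
  {E | E ≤ K ∧ IsCyclicOver k E ∧ ¬ p ∣ deg k E ∧ orderOf (p : ZMod (deg k E)) < d}

/-- The largest power of `p` which divides `[N : ℚ]`, for a finite Galois extension `N / ℚ` which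
contains `K`, is at most `p ^ m`. -/
def Above (p m : ℕ) (K : IntermediateField ℚ Qb) : Prop :=
  ∃ N : IntermediateField ℚ Qb, K ≤ N ∧ FiniteDimensional ℚ N ∧ IsGalois ℚ N ∧
    ¬ p ^ (m + 1) ∣ finrank ℚ N

/-- `r(K R') ≤ C`, `r(K R) ≥ E + 1` and `C < p ^ (d ([K R' : K] - [K R : K])) (E + 1)`. -/
def SmallGrowth (p d : ℕ) (K R R' : IntermediateField ℚ Qb) : Prop :=
  ∃ C E, DegLe p (K ⊔ R') C ∧ ¬ DegLe p (K ⊔ R) E ∧
    C < p ^ (d * (deg K (K ⊔ R') - deg K (K ⊔ R))) * (E + 1)

variable {p : ℕ} [hp : Fact p.Prime] {k K : IntermediateField ℚ Qb}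

theorem normal_of (h : ∀ σ ∈ k.fixingSubgroup, ∀ x ∈ K, σ x ∈ K) :
    (K.fixingSubgroup.subgroupOf k.fixingSubgroup).Normal := by
  refine ⟨fun x hx g => ?_⟩
  rw [Subgroup.mem_subgroupOf, IntermediateField.mem_fixingSubgroup_iff] at hx ⊢
  intro y hy
  have h1 := hx _ (h _ (inv_mem g.2) y hy)
  show (g : Gal(Qb/ℚ)) ((x : Gal(Qb/ℚ)) ((g : Gal(Qb/ℚ))⁻¹ y)) = y
  rw [h1]
  show ((g : Gal(Qb/ℚ)) * (g : Gal(Qb/ℚ))⁻¹) y = y
  rw [mul_inv_cancel]
  rfl

theorem deg_eq {k E : IntermediateField ℚ Qb} [FiniteDimensional ℚ k] [FiniteDimensional ℚ E] (hkE : k ≤ E) :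
    deg k E = E.fixingSubgroup.relIndex k.fixingSubgroup := by
  have h1 := Subgroup.relIndex_mul_index (fixingSubgroup_le hkE)
  rw [deg, finrank_eq_fixingSubgroup_index Qb E, finrank_eq_fixingSubgroup_index Qb k, ← h1]
  exact Nat.mul_div_cancel _ (Nat.pos_of_ne_zero (index_ne_zero' k))

open scoped commutatorElement in
theorem detects (hK : IsFiniteGaloisOver k K) (hab : IsAbelianOver k K) (d : ℕ) :
    DetectsOver p d k K (SmallFields p d k K) := by
  classical
  intro S _ _ _ τ hKt hS hdim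
  obtain ⟨hkK, hfK, hst⟩ := hK
  have hSn := hS.1
  have hfk : FiniteDimensional ℚ k := fd_of_le hkK
  have hKk : K.fixingSubgroup ≤ k.fixingSubgroup := fixingSubgroup_le hkK
  have hK0 := index_ne_zero' K
  have hK'0 : (K.fixingSubgroup.subgroupOf k.fixingSubgroup).relIndex ⊤ ≠ 0 := by
    rw [Subgroup.relIndex_top_right]
    intro h
    have h1 := Subgroup.relIndex_mul_index hKk
    have h2 : K.fixingSubgroup.relIndex k.fixingSubgroup = 0 := h
    rw [h2, zero_mul] at h1
    exact hK0 h1.symm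
  have hcomm : ∀ g ∈ (⊤ : Subgroup k.fixingSubgroup), ∀ h ∈ (⊤ : Subgroup k.fixingSubgroup),
      ⁅g, h⁆ ∈ K.fixingSubgroup.subgroupOf k.fixingSubgroup := by
    intro g _ h _
    rw [Subgroup.mem_subgroupOf, IntermediateField.mem_fixingSubgroup_iff]
    intro x hx
    show (g : Gal(Qb/ℚ)) ((h : Gal(Qb/ℚ)) ((g : Gal(Qb/ℚ))⁻¹ ((h : Gal(Qb/ℚ))⁻¹ x))) = x
    rw [hab h h.2 _ (inv_mem g.2) _ (hst _ (inv_mem h.2) x hx)]
    show ((g : Gal(Qb/ℚ)) * ((g : Gal(Qb/ℚ))⁻¹ * ((h : Gal(Qb/ℚ)) * (h : Gal(Qb/ℚ))⁻¹))) x = x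
    rw [mul_inv_cancel, mul_one, mul_inv_cancel]
    rfl
  have hXn : Nontrivial (Module.Dual (ZMod p) S) := inferInstance
  obtain ⟨H, hKH, -, -, ⟨g₀, -, hgen⟩, ⟨l, hl0, hl⟩, hpn, ho0, hdim1, -⟩ :=
    char_data τ.dual (N := ⊤) inferInstance le_top hK'0 (fun g hg f => by
      ext x
      have h9 : ((g⁻¹ : k.fixingSubgroup) : Gal(Qb/ℚ)) ∈ K.fixingSubgroup :=
        K.fixingSubgroup.inv_mem hg
      rw [dual_apply, hKt _ h9]) hcomm
  set H' : Subgroup Gal(Qb/ℚ) := H.map k.fixingSubgroup.subtype with hH'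
  have hmemH : ∀ g : k.fixingSubgroup, (g : Gal(Qb/ℚ)) ∈ H' ↔ g ∈ H := by
    intro g
    constructor
    · rintro ⟨y, hy, hyg⟩
      rwa [← Subtype.ext hyg]
    · exact fun h => ⟨g, h, rfl⟩
  have hKH' : K.fixingSubgroup ≤ H' := fun g hg => ⟨⟨g, hKk hg⟩, hKH hg, rfl⟩
  have hHk : H' ≤ k.fixingSubgroup := by
    rintro _ ⟨y, -, rfl⟩
    exact y.2
  have hHo : IsOpen (H' : Set Gal(Qb/ℚ)) := Subgroup.isOpen_mono hKH' K.fixingSubgroup_isOpen
  have hH0 : H'.index ≠ 0 := by
    intro h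
    have h1 := Subgroup.index_dvd_of_le hKH'
    rw [h] at h1
    exact hK0 (Nat.eq_zero_of_zero_dvd h1)
  set E := fixedField H' with hE
  have hEH : E.fixingSubgroup = H' := fix_fixed hHo
  have hfE : FiniteDimensional ℚ E := finite_fixed hHo hH0
  have hkE : k ≤ E := (le_iff_le _ _).2 hHk
  have hEK : E ≤ K := by
    have h1 : fixedField H' ≤ fixedField K.fixingSubgroup := fixedField_le hKH'
    rwa [InfiniteGalois.fixedField_fixingSubgroup] at h1
  have hdeg : deg k E = H.relIndex ⊤ := by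
    rw [deg_eq hkE, hEH, Subgroup.relIndex_top_right, Subgroup.relIndex]
    congr 1
    ext g
    rw [Subgroup.mem_subgroupOf]
    exact hmemH g
  have hstE : ∀ σ ∈ k.fixingSubgroup, ∀ x ∈ E, σ x ∈ E := by
    intro σ hσ x hx
    have hmemE : ∀ x, x ∈ E ↔ ∀ h ∈ H', h x = x := fun x => mem_fixedField_iff _ _
    rw [hmemE] at hx ⊢
    rintro h hh
    have h1 : h (σ x) = σ (h x) := hab h (hHk hh) σ hσ x (hEK ((hmemE x).2 hx))
    rw [h1, hx h hh]
  have hfin : finrank (ZMod p) (Module.Dual (ZMod p) S) = finrank (ZMod p) S := Subspace.dual_finrank_eq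
  rw [hfin] at hdim1
  refine ⟨_, ⟨E, ⟨hEK, ⟨hkE, hstE, g₀, g₀.2, fun σ hσ => ?_⟩, by rwa [hdeg], by
    rw [hdeg]
    omega⟩, rfl⟩, ?_⟩
  · obtain ⟨i, hi⟩ := hgen ⟨σ, hσ⟩ (Subgroup.mem_top _)
    refine ⟨i, fun x hx => ?_⟩
    have h1 : ((g₀ : Gal(Qb/ℚ)) ^ i) x ∈ E := hstE _ (pow_mem g₀.2 i) x hx
    have h2 := (mem_fixedField_iff H' _).1 h1 _ ((hmemH _).2 hi)
    rw [← h2]
    show σ x = (σ * ((g₀ : Gal(Qb/ℚ)) ^ i)⁻¹ * (g₀ : Gal(Qb/ℚ)) ^ i) x
    rw [inv_mul_cancel_right]
  · refine ⟨(Module.evalEquiv (ZMod p) S).symm l, ?_, fun g hg => ?_⟩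
    · intro h
      apply hl0
      rw [← (Module.evalEquiv (ZMod p) S).apply_symm_apply l, h, map_zero]
    · rw [fixOver, Subgroup.mem_subgroupOf, hEH, hmemH] at hg
      set v := (Module.evalEquiv (ZMod p) S).symm l with hv
      have hev : ∀ f : Module.Dual (ZMod p) S, l f = f v := by
        intro f
        rw [hv, Module.apply_evalEquiv_symm_apply]
      rw [← sub_eq_zero]
      rw [← Module.forall_dual_apply_eq_zero_iff (ZMod p)]
      intro f
      have h1 := hl g⁻¹ (inv_mem hg) f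
      rw [hev, hev, dual_apply, inv_inv] at h1
      rw [map_sub, h1, sub_self]

theorem result (p : ℕ) (hp2 : p ≠ 2) [Fact p.Prime] (k K : IntermediateField ℚ Qb)
    (hK : IsFiniteGaloisOver k K) (m n : ℕ) (R R' : IntermediateField ℚ Qb) (hR : IsLayer p m R)
    (hR' : IsLayer p n R') (hRR : R ≤ R') (hm : Above p m K) (d : ℕ) (h : SmallGrowth p d K R R') :
    (∀ 𝓔 : Set (IntermediateField ℚ Qb), (∀ E ∈ 𝓔, k ≤ E ∧ E ≤ K) → DetectsOver p d k K 𝓔 →
      (MuZero p K ↔ ∀ E ∈ 𝓔, MuZero p E)) ∧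
    (IsAbelianOver k K →
      (MuZero p K ↔ ∀ E ∈ SmallFields p d k K, MuZero p E) ∧
      ((∀ n, 1 < n → n ∣ deg k K → ¬ p ∣ n → d ≤ orderOf (p : ZMod n)) →
        (MuZero p K ↔ MuZero p k))) := by
  obtain ⟨C, E, hC, hE, hCE⟩ := h
  obtain ⟨N, hKN, hfN, hgN, hN⟩ := hm
  have hfK := hK.2.1
  have h1 : ∀ 𝓔 : Set (IntermediateField ℚ Qb), (∀ E ∈ 𝓔, k ≤ E ∧ E ≤ K) → DetectsOver p d k K 𝓔 →
      (MuZero p K ↔ ∀ E ∈ 𝓔, MuZero p E) := fun 𝓔 h𝓔 hdet =>
    gapk_growth (I := inertia) hp2 inertia_conj (fun A => Or.inl le_rfl) hK.1 (normal_of hK.2.2) 𝓔 h𝓔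
      hdet hR hR' hRR (inertia_total hp2 hKN hR hN) hC hE hCE
  refine ⟨h1, fun hab => ?_⟩
  have h2 := h1 (SmallFields p d k K) (fun E hE => ⟨hE.2.1.1, hE.1⟩) (detects hK hab d)
  refine ⟨h2, fun hord => ⟨fun h3 => muI_down (I := inertia) hK.1 h3, fun h3 => ?_⟩⟩
  rw [h2]
  rintro E ⟨hEK, hcyc, hpE, hsm⟩
  have hfk : FiniteDimensional ℚ k := fd_of_le hK.1
  have hfE : FiniteDimensional ℚ E := fd_of_le hEK
  have hdE := deg_eq hcyc.1
  have hdK := deg_eq hK.1
  have hdvd : deg k E ∣ deg k K := by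
    rw [hdE, hdK, ← Subgroup.relIndex_mul_relIndex K.fixingSubgroup E.fixingSubgroup k.fixingSubgroup
      (fixingSubgroup_le hEK) (fixingSubgroup_le hcyc.1)]
    exact Dvd.intro_left _ rfl
  have hd0 : deg k E ≠ 0 := by
    rw [hdE]
    intro h
    have h4 := Subgroup.relIndex_mul_index (fixingSubgroup_le hcyc.1)
    rw [h, zero_mul] at h4
    exact index_ne_zero' E h4.symm
  have h5 : deg k E = 1 := by
    by_contra hne
    exact absurd (hord _ (by omega) hdvd hpE) (not_le.2 hsm)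
  rw [hdE, Subgroup.relIndex_eq_one] at h5
  have h6 : E = k := by
    apply le_antisymm _ hcyc.1
    have h7 : fixedField E.fixingSubgroup ≤ fixedField k.fixingSubgroup := fixedField_le h5
    rwa [InfiniteGalois.fixedField_fixingSubgroup, InfiniteGalois.fixedField_fixingSubgroup] at h7
  rw [h6]
  exact h3

end Pool.Agent.Results.MP_a4986b_nt.RankGrowthGap
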