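import Pool.Agent.Run7.h759.UD.Bridge

/-!
# Iwasawa's conjecture `μ = 0` and everywhere unramified extensions of prime degree `ℓ ≠ p`

`Qb` is an algebraic closure of `ℚ`, and number fields are finite subextensions of `Qb / ℚ`. For a
number field `F` and an odd prime `p`, `MuNull p Inert F` says that the degrees of the unramified elementary
abelian `p`-extensions of the layers `F R` of the cyclotomic `ℤ_p`-extension of `F` are bounded, that
is, `μ(F_cyc) = 0`.

The conjecture for all number fields is equivalent to its relative form for the extensions `N / M` of
prime degree `ℓ ≠ p` which are Galois and unramified at all places, where `N / ℚ` is Galois and all primes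
which ramify in `N / ℚ`, and all primes above a given number `m`, split completely in `N / M`. For each such extension it is
enough to know that the relative part of one layer is small compared with the degree of the layer. The same holds
inside classes of fields, such as the solvable or the totally real fields or the abelian extensions of a
number field.

Proof. Let `N` be Galois over `k`, with group `G`. The unramified elementary abelian `p`-extensions of `N R` are controlled
by the commutators with the elements `c` of `G` of prime order `ℓ ≠ p` and by the fixed field of these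
elements, over which `N` and `k` are compared by the theorem on extensions of `p`-power degree. For `c` we
adjoin to `N` two totally real cyclic fields of degree `ℓ` and conductors `q₁`, `q₂` such that `q₁` is an `ℓ`-th power
modulo `q₂`, `q₂` is one modulo `q₁`, and all primes which divide `m` or ramify in `N` are `ℓ`-th powers modulo
`q₁`; then `c` lifts to an element of order `ℓ` which does not meet the relevant inertia and decomposition groups.
-/

set_option autoImplicit false

namespace Pool.Agent.Results.MP_a4986b_nt.UnramifiedSteps

open Pool.Agent.Run7.h759.UD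
open Pool.Agent.Q60.MU (inertia inertia_conj)

theorem result (p : ℕ) [Fact p.Prime] (hp2 : p ≠ 2) (m : ℕ) (hm : m ≠ 0) :
    (∀ k : Fld, IsNF k → GalOver ⊥ k → MuNull p Inert k →
      ((∀ F : Fld, IsNF F → MuNull p Inert F) ↔
        ∀ ℓ M N, IsStep p m ⊥ k (fun _ => True) ℓ M N → RelMuNull p Inert M N) ∧
      ((∀ F : Fld, IsNF F → MuNull p Inert F) ↔
        ∀ ℓ M N, IsStep p m ⊥ k (fun _ => True) ℓ M N → OneSmall p Inert ℓ M N)) ∧
    MuNull p Inert ⊥ ∧
    ∀ (a k : Fld) (Q : Fld → Prop), IsClass p a k Q →
      (MuNullOn p Inert a k Q ↔
        MuNull p Inert k ∧ ∀ ℓ M N, IsStep p m a k Q ℓ M N → RelMuNull p Inert M N) ∧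
      (MuNullOn p Inert a k Q ↔
        MuNull p Inert k ∧ ∀ ℓ M N, IsStep p m a k Q ℓ M N → OneSmall p Inert ℓ M N) := by
  have key := fun (a k : Fld) (Q : Fld → Prop) (h : IsClass p a k Q) =>
    And.intro
      (class_rel p hp2 describes_inert inertia_conj (fun _ _ => le_rfl) hm h)
      (class_one p hp2 describes_inert inertia_conj (fun _ _ => le_rfl) hm h (fun _ _ => le_rfl))
  refine ⟨fun k hk hkg hmk => ?_, null_bot p, key⟩
  have hall := all_iff p describes_inert hk
  obtain ⟨h1, h2⟩ := key ⊥ k (fun _ => True) ⟨bot_le, hk, hkg, trivial, fun _ _ _ _ => trivial,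
    fun _ _ _ _ => trivial⟩
  exact ⟨hall.trans (h1.trans ⟨fun h => h.2, fun h => ⟨hmk, h⟩⟩),
    hall.trans (h2.trans ⟨fun h => h.2, fun h => ⟨hmk, h⟩⟩)⟩

end Pool.Agent.Results.MP_a4986b_nt.UnramifiedSteps
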